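import Pool.Agent.Lib.MP_3ede0b_an.SX.Fin
import Pool.Agent.Lib.MP_3ede0b_an.SX.Ker
import Pool.Agent.Lib.MP_3ede0b_an.SX.Smh
import Pool.Agent.Lib.MP_3ede0b_an.SX.Smg
import Pool.Agent.Lib.MP_3ede0b_an.SX.Typ
import Pool.Agent.Lib.MP_3ede0b_an.SX.Conc
import Pool.Agent.Lib.MP_3ede0b_an.SX.Lif
import Pool.Agent.Lib.MP_3ede0b_an.SX.Dua
import Pool.Agent.Lib.MP_3ede0b_an.SX.Sub
import Pool.Agent.Lib.MP_3ede0b_an.SX.Cot
import Pool.Agent.Lib.MP_3ede0b_an.SX.Snm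
import Pool.Agent.Lib.MP_3ede0b_an.SX.Sno

/-! Cotype of Lipschitz-free spaces over sets with few scales in Hilbert and superreflexive spaces,
without any restriction on the dimension, and over snowflakes. -/

namespace Pool.Agent.Results.MP_3ede0b_an.CotypeFewScales

open LipFree LipSX

universe u

/-- `∑ ‖m_i‖ ≤ K k (log (k L) / k) ^ δ` times the average of `‖± m_1 ± ... ± m_k‖`, for the families
satisfying `P`; in consequence `k ≤ (K Δ) ^ (1 / δ) log (k L)` for the subspaces satisfying `P` at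
distance at most `Δ` from `ℓ_∞^k` -/
def RadEst {E : Type u} [NormedAddCommGroup E] [NormedSpace ℝ E] (P : E → Prop)
    (K δ L : ℝ) : Prop :=
  (∀ (k : ℕ) (m : Fin k → E), 1 ≤ k → (∀ i, P (m i)) →
    ∑ i, ‖m i‖ ≤ K * k * (Real.log (k * L) / k) ^ δ * signAvg m) ∧
  (∀ (k : ℕ) (T : (Fin k → ℝ) →ₗ[ℝ] E) (Δ : ℝ), 1 ≤ k → (∀ v, P (T v)) →
    (∀ v, ‖v‖ ≤ ‖T v‖ ∧ ‖T v‖ ≤ Δ * ‖v‖) → (k : ℝ) ≤ (K * Δ) ^ (1 / δ) * Real.log (k * L))

/-- the cotype `s` inequality with constant `C` for the families satisfying `P` -/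
def CotypeEst {E : Type u} [NormedAddCommGroup E] [NormedSpace ℝ E] (P : E → Prop)
    (s C : ℝ) : Prop :=
  ∀ (k : ℕ) (m : Fin k → E), (∀ i, P (m i)) → (∑ i, ‖m i‖ ^ s) ^ (1 / s) ≤ C * signAvg m

/-- `N` is an equivalent norm, `p`-uniformly smooth and `q`-uniformly convex -/
def GoodNorm {X : Type u} [NormedAddCommGroup X] [NormedSpace ℝ X] (N : Seminorm ℝ X)
    (p q K c b : ℝ) : Prop :=
  (∀ x, ‖x‖ ≤ N x) ∧ (∀ x, N x ≤ b * ‖x‖) ∧ PSmooth N p K ∧ QConvex N q c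

theorem asm' : AsmS.{u} := asm con con typ lif dua

theorem result :
    -- Hilbert spaces
    (∀ (H : Type u) [NormedAddCommGroup H] [InnerProductSpace ℝ H] (e : H) (M : Set H) (L : ℕ),
      e ∈ M → 2 ≤ L → FewScales M L → RadEst (Carried (e := e) M) 1000 (1 / 4) L) ∧
    (∀ s : ℝ, 4 < s → ∃ C : ℝ, ∀ (H : Type u) [NormedAddCommGroup H] [InnerProductSpace ℝ H]
      (e : H) (M : Set H) (L : ℕ), e ∈ M → 2 ≤ L → FewScales M L →
      CotypeEst (Carried (e := e) M) s (C * Real.log L ^ ((1 : ℝ) / 4))) ∧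
    -- superreflexive spaces
    (∀ p q K c b : ℝ, 1 < p → p < q → 0 ≤ K → 0 < c → 1 ≤ b → ∃ C δ : ℝ, 0 < δ ∧
      (∀ (X : Type u) [NormedAddCommGroup X] [NormedSpace ℝ X] (N : Seminorm ℝ X),
        GoodNorm N p q K c b → ∀ (e : X) (M : Set X) (L : ℕ), e ∈ M → 2 ≤ L → FewScales M L →
        RadEst (Carried (e := e) M) C δ L) ∧
      (∀ s : ℝ, 1 / δ < s → ∃ C' : ℝ,
        ∀ (X : Type u) [NormedAddCommGroup X] [NormedSpace ℝ X] (N : Seminorm ℝ X),
        GoodNorm N p q K c b → ∀ (e : X) (M : Set X) (L : ℕ), e ∈ M → 2 ≤ L → FewScales M L →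
        CotypeEst (Carried (e := e) M) s (C' * Real.log L ^ δ))) ∧
    -- the number of scales
    (∀ (X : Type u) [MetricSpace X] (M : Set X) (a N : ℝ), 0 < a → 1 ≤ N →
      (∀ x ∈ M, ∀ y ∈ M, x ≠ y → a ≤ dist x y ∧ dist x y ≤ a * N) →
      FewScales M (Nat.log 2 ⌊N⌋₊ + 2)) ∧
    -- snowflakes
    (∀ θ : ℝ, 0 < θ → θ < 1 → ∀ s : ℝ, 2 / (1 - θ) < s → ∃ C : ℝ,
      ∀ (X : Type u) [MetricSpace X], Snowflake X θ → ∀ e : X,
        CotypeEst (fun _ : Free X e => True) s C) := by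
  have hasm : AsmS.{u} := asm'
  refine ⟨?_, ?_, ?_, ?_, ?_⟩
  · intro H _ _ e M L he hL hF
    have hL2 : (2 : ℝ) ≤ L := by exact_mod_cast hL
    have hest := fun (k : ℕ) (m : Fin k → Free H e) (hk : 1 ≤ k) (hm : ∀ i, Carried M (m i)) =>
      hilbert_est hasm (smh ker) H e M L he hL hF k m hk hm
    refine ⟨hest, fun k T Δ hk hT hT2 => ?_⟩
    exact linf_of_est (fun m : Free H e => Carried M m) (1 / 4) 1000 L (by norm_num)
      (by norm_num) hL2 hest k T Δ hk hT hT2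
  · intro s hs
    obtain ⟨C, hC, h⟩ := cotype_of_est.{u} sub cot (1 / 4) s (by norm_num) (by norm_num)
      (by norm_num; exact hs)
    refine ⟨C * 1000, fun H _ _ e M L he hL hF k m hm => ?_⟩
    have hL2 : (2 : ℝ) ≤ L := by exact_mod_cast hL
    exact h 1000 L (by norm_num) hL2 (Free H e) (fun m => Carried M m)
      (fun n m hn hm => hilbert_est hasm (smh ker) H e M L he hL hF n m hn hm) k m hm
  · intro p q K c b hp hpq hK hc hb
    obtain ⟨C, δ, hC, hδ, hδ1, hest⟩ := super_est hasm (smg ker) p q K c b hp hpq hK hc hb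
    refine ⟨C, δ, hδ, ?_, ?_⟩
    · intro X _ _ N hN e M L he hL hF
      obtain ⟨hN1, hN2, hS, hQ⟩ := hN
      have hL2 : (2 : ℝ) ≤ L := by exact_mod_cast hL
      have hest' := fun (k : ℕ) (m : Fin k → Free X e) (hk : 1 ≤ k)
        (hm : ∀ i, Carried M (m i)) => hest X N hN1 hN2 hS hQ e M L he hL hF k m hk hm
      exact ⟨hest', fun k T Δ hk hT hT2 => linf_of_est (fun m : Free X e => Carried M m) δ C L hδ
        hC hL2 hest' k T Δ hk hT hT2⟩
    · intro s hs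
      obtain ⟨C', hC', h⟩ := cotype_of_est.{u} sub cot δ s hδ hδ1 hs
      refine ⟨C' * C, fun X _ _ N hN e M L he hL hF k m hm => ?_⟩
      obtain ⟨hN1, hN2, hS, hQ⟩ := hN
      have hL2 : (2 : ℝ) ≤ L := by exact_mod_cast hL
      exact h C L hC.le hL2 (Free X e) (fun m => Carried M m)
        (fun n m hn hm => hest X N hN1 hN2 hS hQ e M L he hL hF n m hn hm) k m hm
  · intro X _ M a N ha hN h
    exact few_of_ratio M a N ha hN (fun x hx y hy hxy => h x hx y hy (by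
      rintro rfl; exact hxy (dist_self _)))
  · intro θ h0 h1 s hs
    have hδ : 0 < (1 - θ) / 2 := by linarith
    obtain ⟨C1, hC1, hest⟩ := snow_est.{u} sno_proof fin θ h0 h1
    obtain ⟨C, hC, h⟩ := cotype_of_est.{u} sub cot ((1 - θ) / 2) s hδ (by linarith)
      (by rw [one_div_div]; exact hs)
    refine ⟨C * C1, fun X _ hX e k m _ => ?_⟩
    have he : (2 : ℝ) ≤ Real.exp 1 := by
      have := Real.exp_one_gt_d9
      linarith
    have h2 := h C1 (Real.exp 1) hC1.le he (Free X e) (fun _ => True)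
      (fun n m hn _ => hest X hX e n m hn) k m (fun _ => trivial)
    rw [Real.log_exp, Real.one_rpow, mul_one] at h2
    exact h2

end Pool.Agent.Results.MP_3ede0b_an.CotypeFewScales
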