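import Pool.Agent.Lib.MP_3ede0b_an.Transfer

/-! The cotype 2 constant of the part of the Lipschitz-free space carried by a set with few
scales. -/

namespace Pool.Agent.Results.MP_3ede0b_an.CotypeOfGrids

open LipFree

universe u

/-- the element `m` of `F(X)` is a linear combination of the evaluations at the points of `M` -/
def CarriedBy {X : Type u} [PseudoMetricSpace X] {e : X} (M : Set X) (m : Free X e) : Prop :=
  m.1 ∈ Submodule.span ℝ ((fun x => delta e x) '' M)

/-- the average of `‖± x_1 ± ... ± x_k‖` over all signs -/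
noncomputable def signAvg {E : Type u} [NormedAddCommGroup E] [NormedSpace ℝ E] {k : ℕ}
    (x : Fin k → E) : ℝ :=
  (∑ ε : Fin k → Bool, ‖∑ i, (if ε i then (1 : ℝ) else -1) • x i‖) / 2 ^ k

/-- the distances of distinct points of `M` lie in `[a, a N]` -/
def Scales {X : Type u} [PseudoMetricSpace X] (M : Set X) (a N : ℝ) : Prop :=
  ∀ x ∈ M, ∀ y ∈ M, x ≠ y → a ≤ dist x y ∧ dist x y ≤ a * N

/-- every `r`-separated finite subset of `M` in a ball of radius `4 r` centered at a point of `M`
has at most `K` points -/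
def Doubling {X : Type u} [PseudoMetricSpace X] (M : Set X) (K : ℕ) : Prop :=
  ∀ (r : ℝ), 0 < r → ∀ x ∈ M, ∀ S : Finset X, (↑S : Set X) ⊆ M → (∀ z ∈ S, dist z x ≤ 4 * r) →
    (∀ z ∈ S, ∀ w ∈ S, z ≠ w → r ≤ dist z w) → S.card ≤ K

open LipRad Finset

theorem main_free {X : Type u} [PseudoMetricSpace X] {e : X} {M : Set X} {k : ℕ} (he : e ∈ M)
    (P : M → Finset (M × M)) (hch : Checks P 10) (D : ℝ) (hD : 2 ≤ D)
    (hP : ∀ x, ((P x).card : ℝ) ≤ D) (m : Fin k → Free X e) (hm : ∀ i, CarriedBy M (m i)) :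
    Real.sqrt (∑ i, ‖m i‖ ^ 2) ≤ 155 * Real.sqrt (Real.log D) * signAvg m := by
  have h := sub_ineq he P hch D hD hP (fun i => (m i).1) hm
  have e1 : avg (fun ε => ‖∑ i, sg (ε i) • (m i).1‖) = signAvg m := by
    unfold avg signAvg
    congr 1
    refine sum_congr rfl fun ε _ => ?_
    have : ((∑ i, (if ε i then (1 : ℝ) else -1) • m i : Free X e)).1 =
        ∑ i, sg (ε i) • (m i).1 := by
      have := map_sum (FreeSpace X e).subtype (fun i => (if ε i then (1 : ℝ) else -1) • m i)
        Finset.univ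
      exact this
    exact congrArg (fun z => ‖z‖) this.symm
  rw [e1] at h
  have h0 : 0 ≤ signAvg m := by
    unfold signAvg; positivity
  have h60 : Real.sqrt (60 * Real.log D) = Real.sqrt 60 * Real.sqrt (Real.log D) :=
    Real.sqrt_mul (by norm_num) _
  have h61 : Real.sqrt 60 ≤ 7.75 := by
    rw [Real.sqrt_le_left (by norm_num)]; norm_num
  refine h.trans (mul_le_mul_of_nonneg_right ?_ h0)
  rw [h60]
  have := mul_le_mul_of_nonneg_right h61 (Real.sqrt_nonneg (Real.log D))
  linarith

theorem few_scales {X : Type u} [MetricSpace X] {e : X} {M : Set X} [Finite M] {k : ℕ}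
    (he : e ∈ M) (a N : ℝ) (ha : 0 < a) (hN : 3 ≤ N) (hM : Scales M a N) (K : ℕ) (hK1 : 1 ≤ K)
    (hK : Packing M K) (m : Fin k → Free X e) (hm : ∀ i, CarriedBy M (m i)) :
    Real.sqrt (∑ i, ‖m i‖ ^ 2) ≤
      155 * Real.sqrt (87 / 100 + Real.log (K + 1) + Real.log (Real.log N)) * signAvg m := by
  classical
  -- the number of scales
  have hlog2 : 0 < Real.log 2 := Real.log_pos (by norm_num)
  have hlogN : 0 < Real.log N := Real.log_pos (by linarith)
  set J : ℕ := ⌊Real.log N / Real.log 2⌋₊ with hJ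
  have hJ1 : (J : ℝ) ≤ Real.log N / Real.log 2 := Nat.floor_le (by positivity)
  have hJ2 : Real.log N / Real.log 2 < J + 1 := Nat.lt_floor_add_one _
  have hN2 : N < 2 ^ (J + 1) := by
    rw [div_lt_iff₀ hlog2] at hJ2
    have : Real.log N < Real.log (2 ^ (J + 1)) := by
      rw [Real.log_pow]; push_cast; exact hJ2
    exact (Real.log_lt_log_iff (by linarith) (by positivity)).mp this
  obtain ⟨P, hP1, hP2⟩ := exists_pairs M K J a ha hK
    (fun x y hxy => (hM x x.2 y y.2 (fun h => hxy (Subtype.ext h))).1)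
    (fun x y => by
      rcases eq_or_ne x y with rfl | hxy
      · rw [dist_self]; positivity
      · have h1 := (hM x x.2 y y.2 (fun h => hxy (Subtype.ext h))).2
        have h2 := mul_lt_mul_of_pos_left hN2 ha
        exact lt_of_le_of_lt h1 h2)
  set D : ℝ := (J + 1) * (K + 1) with hD
  have hK1' : (1 : ℝ) ≤ K := by exact_mod_cast hK1
  have hJ0 : (0 : ℝ) ≤ J := Nat.cast_nonneg _
  have hD2 : 2 ≤ D := by rw [hD]; nlinarith
  have h := main_free he P hP1 D hD2 (fun x => by
    have := hP2 x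
    have h3 : ((P x).card : ℝ) ≤ (((J + 1) * (K + 1) : ℕ) : ℝ) := by exact_mod_cast this
    rw [hD]; push_cast at h3; exact h3) m hm
  have h0 : 0 ≤ signAvg m := by unfold signAvg; positivity
  refine h.trans (mul_le_mul_of_nonneg_right (mul_le_mul_of_nonneg_left ?_ (by norm_num)) h0)
  apply Real.sqrt_le_sqrt
  rw [hD, Real.log_mul (by positivity) (by positivity)]
  -- the logarithm of the number of scales
  have hl3 : (1.0986 : ℝ) ≤ Real.log N := by
    have h1 : Real.log 3 ≤ Real.log N := Real.log_le_log (by norm_num) hN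
    have h2 : (1.0986 : ℝ) ≤ Real.log 3 := by
      rw [Real.le_log_iff_exp_le (by norm_num)]
      have h3 : Real.exp 1.0986 = Real.exp 1 * Real.exp 0.0986 := by
        rw [← Real.exp_add]; norm_num
      rw [h3]
      have h4 := Real.exp_one_lt_d9
      have h5 : Real.exp 0.0986 ≤ 1.10363 := by
        have := Real.exp_bound' (x := (0.0986 : ℝ)) (by norm_num) (by norm_num) (n := 5)
          (by norm_num)
        refine this.trans ?_
        norm_num [Finset.sum_range_succ, Nat.factorial]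
      have h6 : 0 < Real.exp 0.0986 := Real.exp_pos _
      nlinarith [Real.exp_pos 1]
    linarith
  have hJ3 : (J : ℝ) + 1 ≤ 2.36 * Real.log N := by
    have h1 : Real.log N / Real.log 2 ≤ 1.4428 * Real.log N := by
      rw [div_le_iff₀ hlog2]
      have := Real.log_two_gt_d9
      nlinarith
    have h2 : (1 : ℝ) ≤ 0.9103 * Real.log N := by nlinarith
    linarith
  have h1 : Real.log ((J : ℝ) + 1) ≤ 87 / 100 + Real.log (Real.log N) := by
    calc Real.log ((J : ℝ) + 1) ≤ Real.log (2.36 * Real.log N) :=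
          Real.log_le_log (by positivity) hJ3
      _ = Real.log 2.36 + Real.log (Real.log N) := Real.log_mul (by norm_num) hlogN.ne'
      _ ≤ _ := by
          have : Real.log 2.36 ≤ 87 / 100 := by
            rw [Real.log_le_iff_le_exp (by norm_num)]
            have := Real.quadratic_le_exp_of_nonneg (x := (87 / 100 : ℝ)) (by norm_num)
            have h2 := Real.sum_le_exp_of_nonneg (x := (87 / 100 : ℝ)) (by norm_num) 5
            refine le_trans ?_ h2
            norm_num [Finset.sum_range_succ, Nat.factorial]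
          linarith
  linarith

theorem packing_of_doubling {X : Type u} [PseudoMetricSpace X] {M : Set X} {K : ℕ}
    (h : Doubling M K) : Packing M K := by
  classical
  intro r hr x S hS hsep
  have h1 := h r hr x x.2 (S.map (Function.Embedding.subtype _)) (by
      intro z hz
      rw [Finset.mem_coe, Finset.mem_map] at hz
      obtain ⟨w, _, rfl⟩ := hz
      exact w.2) (by
      intro z hz
      rw [Finset.mem_map] at hz
      obtain ⟨w, hw, rfl⟩ := hz
      exact hS w hw) (by
      intro z hz w hw hzw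
      rw [Finset.mem_map] at hz hw
      obtain ⟨z', hz', rfl⟩ := hz
      obtain ⟨w', hw', rfl⟩ := hw
      exact hsep z' hz' w' hw' (fun h => hzw (by rw [h])))
  rwa [Finset.card_map] at h1

theorem part_doubling {X : Type u} [MetricSpace X] (e : X) (M : Set X) (hfin : M.Finite)
    (he : e ∈ M) (a N : ℝ) (ha : 0 < a) (hN : 3 ≤ N) (hM : Scales M a N) (K : ℕ) (hK2 : 2 ≤ K)
    (hK : Doubling M K) (k : ℕ) (m : Fin k → Free X e) (hm : ∀ i, CarriedBy M (m i)) :
    Real.sqrt (∑ i, ‖m i‖ ^ 2) ≤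
      300 * Real.sqrt (Real.log K + Real.log (Real.log N)) * signAvg m := by
  have := hfin.to_subtype
  have h := few_scales he a N ha hN hM K (by omega) (packing_of_doubling hK) m hm
  have h0 : 0 ≤ signAvg m := by unfold signAvg; positivity
  refine h.trans (mul_le_mul_of_nonneg_right ?_ h0)
  have hKr : (2 : ℝ) ≤ K := by exact_mod_cast hK2
  have hl2 := Real.log_two_gt_d9
  have h1 : Real.log 2 ≤ Real.log K := Real.log_le_log (by norm_num) hKr
  have h2 : Real.log ((K : ℝ) + 1) ≤ 2 * Real.log K := by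
    rw [← Real.log_rpow (by linarith)]
    apply Real.log_le_log (by linarith)
    rw [show ((2 : ℝ)) = ((2 : ℕ) : ℝ) by norm_num, Real.rpow_natCast]
    nlinarith
  have h3 : 0 ≤ Real.log (Real.log N) := by
    apply Real.log_nonneg
    rw [Real.le_log_iff_exp_le (by linarith)]
    have := Real.exp_one_lt_d9
    linarith
  have h4 : Real.sqrt (87 / 100 + Real.log (K + 1) + Real.log (Real.log N)) ≤
      (1.81 : ℝ) * Real.sqrt (Real.log K + Real.log (Real.log N)) := by
    rw [show (1.81 : ℝ) = Real.sqrt (1.81 ^ 2) by rw [Real.sqrt_sq (by norm_num)],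
      ← Real.sqrt_mul (by norm_num)]
    apply Real.sqrt_le_sqrt
    nlinarith
  calc _ ≤ 155 * ((1.81 : ℝ) * Real.sqrt (Real.log K + Real.log (Real.log N))) :=
        mul_le_mul_of_nonneg_left h4 (by norm_num)
    _ ≤ _ := by
        have := Real.sqrt_nonneg (Real.log K + Real.log (Real.log N))
        linarith

theorem finite_of_scales {E : Type u} [NormedAddCommGroup E] [NormedSpace ℝ E]
    [FiniteDimensional ℝ E] (M : Set E) (a N : ℝ) (ha : 0 < a) (e : E) (he : e ∈ M) (hN : 0 ≤ N)
    (hM : Scales M a N) : M.Finite := by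
  have hcl : IsClosed M := by
    refine Metric.isClosed_of_pairwise_le_dist ha ?_
    intro x hx y hy hxy
    exact (hM x hx y hy hxy).1
  have hsub : M ⊆ Metric.closedBall e (a * N) := by
    intro x hx
    rw [Metric.mem_closedBall]
    rcases eq_or_ne x e with rfl | hxe
    · rw [dist_self]; positivity
    · exact (hM x hx e he hxe).2
  have := FiniteDimensional.proper ℝ E
  have hcomp : IsCompact M := (isCompact_closedBall e (a * N)).of_isClosed_subset hcl hsub
  have hdisc : DiscreteTopology M := by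
    refine DiscreteTopology.of_forall_le_dist ha ?_
    intro x y hxy
    exact (hM x x.2 y y.2 (fun h => hxy (Subtype.ext h))).1
  exact hcomp.finite ⟨hdisc⟩

theorem part_normed (E : Type u) [NormedAddCommGroup E] [NormedSpace ℝ E]
    [FiniteDimensional ℝ E] (n : ℕ) (hn : Module.finrank ℝ E = n) (hn1 : 1 ≤ n) (e : E)
    (M : Set E) (he : e ∈ M) (a N : ℝ) (ha : 0 < a) (hN : 3 ≤ N) (hM : Scales M a N) (k : ℕ)
    (m : Fin k → Free E e) (hm : ∀ i, CarriedBy M (m i)) :
    Real.sqrt (∑ i, ‖m i‖ ^ 2) ≤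
      300 * Real.sqrt (n + Real.log (Real.log N)) * signAvg m := by
  have hfin : M.Finite := finite_of_scales M a N ha e he (by linarith) hM
  have := hfin.to_subtype
  have hp := packing_normed M
  rw [hn] at hp
  have h := few_scales he a N ha hN hM (9 ^ n) (Nat.one_le_pow _ _ (by norm_num)) hp m hm
  have h0 : 0 ≤ signAvg m := by unfold signAvg; positivity
  refine h.trans (mul_le_mul_of_nonneg_right ?_ h0)
  have hnr : (1 : ℝ) ≤ n := by exact_mod_cast hn1
  have h2 : Real.log (((9 ^ n : ℕ) : ℝ) + 1) ≤ 2.31 * n := by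
    have h5 : (((9 ^ n : ℕ) : ℝ) + 1) ≤ 10 ^ n := by
      have h6 : 9 ^ n + 1 ≤ 10 ^ n := by
        obtain ⟨j, rfl⟩ : ∃ j, n = j + 1 := ⟨n - 1, by omega⟩
        have : 9 ^ j ≤ 10 ^ j := Nat.pow_le_pow_left (by norm_num) j
        have h7 : 1 ≤ 10 ^ j := Nat.one_le_pow _ _ (by norm_num)
        calc 9 ^ (j + 1) + 1 = 9 * 9 ^ j + 1 := by ring
          _ ≤ 9 * 10 ^ j + 10 ^ j := by omega
          _ = _ := by ring
      exact_mod_cast h6
    calc _ ≤ Real.log ((10 : ℝ) ^ n) := Real.log_le_log (by positivity) h5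
      _ = n * Real.log 10 := Real.log_pow _ _
      _ ≤ n * 2.31 := by
          apply mul_le_mul_of_nonneg_left _ (by positivity)
          rw [Real.log_le_iff_le_exp (by norm_num)]
          have h2 := Real.sum_le_exp_of_nonneg (x := (2.31 : ℝ)) (by norm_num) 10
          refine le_trans ?_ h2
          norm_num [Finset.sum_range_succ, Nat.factorial]
      _ = _ := mul_comm _ _
  have h3 : 0 ≤ Real.log (Real.log N) := by
    apply Real.log_nonneg
    rw [Real.le_log_iff_exp_le (by linarith)]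
    have := Real.exp_one_lt_d9
    linarith
  have h4 : Real.sqrt (87 / 100 + Real.log (((9 ^ n : ℕ) : ℝ) + 1) + Real.log (Real.log N)) ≤
      (1.8 : ℝ) * Real.sqrt (n + Real.log (Real.log N)) := by
    rw [show (1.8 : ℝ) = Real.sqrt (1.8 ^ 2) by rw [Real.sqrt_sq (by norm_num)],
      ← Real.sqrt_mul (by norm_num)]
    apply Real.sqrt_le_sqrt
    nlinarith
  calc _ ≤ 155 * ((1.8 : ℝ) * Real.sqrt (n + Real.log (Real.log N))) :=
        mul_le_mul_of_nonneg_left h4 (by norm_num)
    _ ≤ _ := by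
        have := Real.sqrt_nonneg ((n : ℝ) + Real.log (Real.log N))
        linarith

theorem part_card {X : Type u} [PseudoMetricSpace X] (e : X) (M : Set X) (hfin : M.Finite)
    (he : e ∈ M) (N : ℕ) (hN : 2 ≤ N) (hcard : M.ncard ≤ N) (k : ℕ)
    (m : Fin k → Free X e) (hm : ∀ i, CarriedBy M (m i)) :
    Real.sqrt (∑ i, ‖m i‖ ^ 2) ≤ 155 * Real.sqrt (Real.log N) * signAvg m := by
  have := hfin.to_subtype
  obtain ⟨P, hP1, hP2⟩ := exists_pairs_card M
  refine main_free he P hP1 N (by exact_mod_cast hN) (fun x => ?_) m hm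
  have h1 := (hP2 x).trans (le_of_eq (Nat.card_coe_set_eq M)) |>.trans hcard
  exact_mod_cast h1

theorem part_linf (E : Type u) [NormedAddCommGroup E] [NormedSpace ℝ E]
    [FiniteDimensional ℝ E] (n : ℕ) (hn : Module.finrank ℝ E = n) (hn1 : 1 ≤ n) (e : E)
    (M : Set E) (he : e ∈ M) (a N : ℝ) (ha : 0 < a) (hN : 3 ≤ N) (hM : Scales M a N) (k : ℕ)
    (T : (Fin k → ℝ) →ₗ[ℝ] Free E e) (Δ : ℝ) (hT : ∀ v, CarriedBy M (T v))
    (hT2 : ∀ v, ‖v‖ ≤ ‖T v‖ ∧ ‖T v‖ ≤ Δ * ‖v‖) :
    (k : ℝ) ≤ (300 * Δ) ^ 2 * (n + Real.log (Real.log N)) := by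
  classical
  have h3 : 0 ≤ Real.log (Real.log N) := by
    apply Real.log_nonneg
    rw [Real.le_log_iff_exp_le (by linarith)]
    have := Real.exp_one_lt_d9
    linarith
  rcases Nat.eq_zero_or_pos k with rfl | hk
  · push_cast; positivity
  have : Nonempty (Fin k) := ⟨⟨0, hk⟩⟩
  have hone : ∀ i : Fin k, ‖(Pi.single i (1 : ℝ) : Fin k → ℝ)‖ = 1 := by
    intro i
    rw [Pi.norm_single]; norm_num
  have hΔ : 0 ≤ Δ := by
    have h1 := hT2 (Pi.single ⟨0, hk⟩ (1 : ℝ))
    rw [hone] at h1
    linarith [h1.1, h1.2]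
  set m : Fin k → Free E e := fun i => T (Pi.single i 1) with hm
  have h := part_normed E n hn hn1 e M he a N ha hN hM k m (fun i => hT _)
  have h1 : (k : ℝ) ≤ ∑ i, ‖m i‖ ^ 2 := by
    have : ∑ _i : Fin k, (1 : ℝ) ≤ ∑ i, ‖m i‖ ^ 2 := by
      refine Finset.sum_le_sum fun i _ => ?_
      have := (hT2 (Pi.single i (1 : ℝ))).1
      rw [hone] at this
      nlinarith
    simpa using this
  have h2 : signAvg m ≤ Δ := by
    unfold signAvg
    rw [div_le_iff₀ (by positivity)]
    have : ∀ ε : Fin k → Bool, ‖∑ i, (if ε i then (1 : ℝ) else -1) • m i‖ ≤ Δ := by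
      intro ε
      have e1 : ∑ i, (if ε i then (1 : ℝ) else -1) • m i =
          T (fun i => if ε i then (1 : ℝ) else -1) := by
        have e2 : (fun i => if ε i then (1 : ℝ) else -1 : Fin k → ℝ) =
            ∑ i, (if ε i then (1 : ℝ) else -1) • (Pi.single i 1 : Fin k → ℝ) := by
          ext j
          rw [Finset.sum_apply]
          simp only [Pi.smul_apply, Pi.single_apply, smul_eq_mul, mul_ite, mul_one, mul_zero]
          rw [Finset.sum_ite_eq]
          simp
        rw [e2, map_sum]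
        simp only [hm, map_smul]
      rw [e1]
      refine (hT2 _).2.trans ?_
      have : ‖(fun i => if ε i then (1 : ℝ) else -1 : Fin k → ℝ)‖ ≤ 1 := by
        rw [pi_norm_le_iff_of_nonneg zero_le_one]
        intro i
        split_ifs <;> simp
      have := mul_le_mul_of_nonneg_left this hΔ
      linarith
    calc _ ≤ ∑ _ε : Fin k → Bool, Δ := Finset.sum_le_sum fun ε _ => this ε
      _ = Δ * 2 ^ k := by
          rw [Finset.sum_const, Finset.card_univ, nsmul_eq_mul, Fintype.card_fun,
            Fintype.card_bool, Fintype.card_fin]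
          push_cast; ring
  have h4 : Real.sqrt k ≤ 300 * Real.sqrt (n + Real.log (Real.log N)) * Δ := by
    calc _ ≤ Real.sqrt (∑ i, ‖m i‖ ^ 2) := Real.sqrt_le_sqrt h1
      _ ≤ _ := h
      _ ≤ _ := mul_le_mul_of_nonneg_left h2 (by positivity)
  have h5 : (0 : ℝ) ≤ k := Nat.cast_nonneg k
  calc (k : ℝ) = Real.sqrt k ^ 2 := (Real.sq_sqrt h5).symm
    _ ≤ (300 * Real.sqrt (n + Real.log (Real.log N)) * Δ) ^ 2 :=
        pow_le_pow_left₀ (Real.sqrt_nonneg _) h4 2
    _ = (300 * Δ) ^ 2 * (Real.sqrt (n + Real.log (Real.log N)) ^ 2) := by ring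
    _ = _ := by rw [Real.sq_sqrt (by positivity)]

/-- The part of the Lipschitz-free space carried by a set with few scales satisfies the cotype 2
inequality with a constant of the order of the square root of the iterated logarithm of the ratio
of the largest to the smallest distance. -/
theorem result :
    (∀ (E : Type u) [NormedAddCommGroup E] [NormedSpace ℝ E] [FiniteDimensional ℝ E] (n : ℕ),
      Module.finrank ℝ E = n → 1 ≤ n → ∀ (e : E) (M : Set E), e ∈ M → ∀ (a N : ℝ), 0 < a →
      3 ≤ N → Scales M a N →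
      (∀ (k : ℕ) (m : Fin k → Free E e), (∀ i, CarriedBy M (m i)) →
        Real.sqrt (∑ i, ‖m i‖ ^ 2) ≤
          300 * Real.sqrt (n + Real.log (Real.log N)) * signAvg m) ∧
      (∀ (k : ℕ) (T : (Fin k → ℝ) →ₗ[ℝ] Free E e) (Δ : ℝ), (∀ v, CarriedBy M (T v)) →
        (∀ v, ‖v‖ ≤ ‖T v‖ ∧ ‖T v‖ ≤ Δ * ‖v‖) →
        (k : ℝ) ≤ (300 * Δ) ^ 2 * (n + Real.log (Real.log N)))) ∧
    (∀ (X : Type u) [MetricSpace X] (e : X) (M : Set X), M.Finite → e ∈ M → ∀ (a N : ℝ), 0 < a →
      3 ≤ N → Scales M a N → ∀ K : ℕ, 2 ≤ K → Doubling M K →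
      ∀ (k : ℕ) (m : Fin k → Free X e), (∀ i, CarriedBy M (m i)) →
        Real.sqrt (∑ i, ‖m i‖ ^ 2) ≤
          300 * Real.sqrt (Real.log K + Real.log (Real.log N)) * signAvg m) ∧
    (∀ (X : Type u) [MetricSpace X] (e : X) (M : Set X), M.Finite → e ∈ M → ∀ N : ℕ, 2 ≤ N →
      M.ncard ≤ N → ∀ (k : ℕ) (m : Fin k → Free X e), (∀ i, CarriedBy M (m i)) →
        Real.sqrt (∑ i, ‖m i‖ ^ 2) ≤ 155 * Real.sqrt (Real.log N) * signAvg m) := by
  refine ⟨?_, ?_, ?_⟩
  · intro E _ _ _ n hn hn1 e M he a N ha hN hM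
    exact ⟨fun k m hm => part_normed E n hn hn1 e M he a N ha hN hM k m hm,
      fun k T Δ hT hT2 => part_linf E n hn hn1 e M he a N ha hN hM k T Δ hT hT2⟩
  · intro X _ e M hfin he a N ha hN hM K hK2 hK k m hm
    exact part_doubling e M hfin he a N ha hN hM K hK2 hK k m hm
  · intro X _ e M hfin he N hN hcard k m hm
    exact part_card e M hfin he N hN hcard k m hm

end Pool.Agent.Results.MP_3ede0b_an.CotypeOfGrids
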