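import Pool.Agent.Lib.MP_3ede0b_an.Main

/-! Lipschitz-free spaces over spaces containing the `l_p^N` uniformly have no cotype below
`2 p / (p - 1)`. -/

namespace Pool.Agent.Results.MP_3ede0b_an.NoCotypeBelowFour

open LipFree

universe u

/-- For `1 < p < ∞` the Lipschitz-free space of a metric space containing all `l_p^N` uniformly
(for example of `l_p`) contains, for every `k`, vectors `x_1, ..., x_k` of norm at least `c` all of
whose signed sums have norm at most `C k^((1 - 1/p)/2)`; hence it has no cotype `q < 2p/(p-1)`. -/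
theorem result :
    (∀ (p : ℝ), 1 < p → ∀ (M : Type u) [MetricSpace M] (e : M), ContainsEllP p M →
      SmallSignedSums ((1 - 1 / p) / 2) (Free M e) ∧
      ∀ q : ℝ, 0 < q → q < 2 * p / (p - 1) → ¬ HasCotype q (Free M e)) ∧
    ∀ (p : ENNReal) [Fact (1 ≤ p)], p ≠ ⊤ →
      ContainsEllP p.toReal (EllP p) := by
  refine ⟨?_, fun p _ hp => contains_EllP p hp⟩
  intro p hp M _ e hM
  refine ⟨main_free e p hp hM, ?_⟩
  intro q hq hqp
  refine not_cotype p hp ?_ q hq hqp
  exact main_free e p hp hM

end Pool.Agent.Results.MP_3ede0b_an.NoCotypeBelowFour
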